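import Mathlib

/-!
# A Nash inequality on `ℤ ^ d` with explicit constants
-/

set_option autoImplicit false
set_option linter.all false

open Finset Function

namespace Pool.Agent.Y261.HE.NSH

/-! ### one dimension -/

/-- binomial coefficients with an integer index -/
noncomputable def cc (n : ℕ) (k : ℤ) : ℝ := if 0 ≤ k then (n.choose k.toNat : ℝ) else 0

theorem cc_succ (n : ℕ) (k : ℤ) : cc (n + 1) k = cc n k + cc n (k - 1) := by
  unfold cc
  rcases lt_trichotomy k 0 with h | h | h
  · rw [if_neg (by omega), if_neg (by omega), if_neg (by omega), add_zero]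
  · subst h
    norm_num
  · rw [if_pos (by omega), if_pos (by omega), if_pos (by omega)]
    obtain ⟨j, rfl⟩ : ∃ j : ℕ, k = j + 1 := ⟨(k - 1).toNat, by omega⟩
    have e1 : ((j : ℤ) + 1).toNat = j + 1 := by omega
    have e2 : ((j : ℤ) + 1 - 1).toNat = j := by omega
    rw [e1, e2, Nat.choose_succ_succ]
    push_cast
    ring

theorem cc_nonneg (n : ℕ) (k : ℤ) : 0 ≤ cc n k := by
  unfold cc
  split_ifs
  · exact Nat.cast_nonneg _
  · exact le_rfl

theorem cc_le (m : ℕ) (k : ℤ) : cc (2 * m) k ≤ m.centralBinom := by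
  unfold cc
  split_ifs
  · exact_mod_cast Nat.choose_le_centralBinom _ _
  · exact Nat.cast_nonneg _

theorem cbin (m : ℕ) : ((m.centralBinom : ℝ) / 4 ^ m) ^ 2 * (2 * m + 1) ≤ 1 := by
  induction m with
  | zero => simp
  | succ m ih =>
    have h1 : ((m : ℝ) + 1) * (m + 1).centralBinom = 2 * (2 * m + 1) * m.centralBinom := by
      exact_mod_cast Nat.succ_mul_centralBinom_succ m
    have hm : (0 : ℝ) < (m : ℝ) + 1 := by positivity
    have h2 : ((m + 1).centralBinom : ℝ) / 4 ^ (m + 1) =
        (m.centralBinom : ℝ) / 4 ^ m * ((2 * m + 1) / (2 * m + 2)) := by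
      have : ((m + 1).centralBinom : ℝ) = 2 * (2 * m + 1) * m.centralBinom / (m + 1) := by
        rw [eq_div_iff hm.ne', mul_comm]
        exact h1
      rw [this, pow_succ]
      have h4 : (4 : ℝ) ^ m ≠ 0 := by positivity
      have h5 : (2 * (m : ℝ) + 2) ≠ 0 := by positivity
      field_simp
      ring
    rw [h2]
    set x : ℝ := (m.centralBinom : ℝ) / 4 ^ m with hx
    have h3 : (x * ((2 * m + 1) / (2 * m + 2))) ^ 2 * (2 * ((m + 1 : ℕ) : ℝ) + 1) =
        (x ^ 2 * (2 * m + 1)) * ((2 * m + 1) * (2 * m + 3) / (2 * m + 2) ^ 2) := by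
      push_cast
      have h5 : (2 * (m : ℝ) + 2) ≠ 0 := by positivity
      field_simp
      ring
    rw [h3]
    have h4 : ((2 * m + 1) * (2 * m + 3) / (2 * m + 2) ^ 2 : ℝ) ≤ 1 := by
      rw [div_le_one (by positivity)]
      nlinarith
    exact mul_le_one₀ ih (by positivity) h4

theorem cbin' (m : ℕ) : (m.centralBinom : ℝ) / 4 ^ m ≤ (Real.sqrt (2 * m + 1))⁻¹ := by
  have h1 := cbin m
  have h2 : (0 : ℝ) < 2 * m + 1 := by positivity
  have h3 : 0 < Real.sqrt (2 * m + 1) := Real.sqrt_pos.2 h2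
  rw [← one_div, le_div_iff₀ h3]
  have h4 : ((m.centralBinom : ℝ) / 4 ^ m * Real.sqrt (2 * m + 1)) ^ 2 ≤ 1 := by
    rw [mul_pow, Real.sq_sqrt h2.le]
    exact h1
  exact (sq_le_one_iff₀ (by positivity)).1 h4

/-- one step -/
noncomputable def S1 (f : ℤ → ℝ) (t : ℤ) : ℝ := f t / 2 + (f (t + 1) + f (t - 1)) / 4

theorem S1_iter (a : ℤ) (m : ℕ) (t : ℤ) :
    (S1^[m] fun t => if t = a then 1 else 0) t = cc (2 * m) (t - a + m) / 4 ^ m := by
  induction m generalizing t with
  | zero =>
    simp only [iterate_zero, id_eq, mul_zero, Nat.cast_zero, add_zero, pow_zero, div_one]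
    unfold cc
    by_cases h : t = a
    · rw [if_pos h, if_pos (by omega), h]
      simp
    · rw [if_neg h]
      split_ifs with h1
      · have : (t - a).toNat ≠ 0 := by omega
        rw [Nat.choose_eq_zero_of_lt (by omega)]
        simp
      · rfl
  | succ m ih =>
    rw [iterate_succ_apply', S1, ih, ih, ih]
    rw [show 2 * (m + 1) = 2 * m + 1 + 1 by ring, cc_succ, cc_succ, cc_succ]
    rw [show t - a + ((m + 1 : ℕ) : ℤ) = t + 1 - a + m by push_cast; ring,
      show t + 1 - a + (m : ℤ) - 1 = t - a + m by ring,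
      show t - a + (m : ℤ) - 1 = t - 1 - a + m by ring, pow_succ]
    ring

theorem S1_bd (a : ℤ) (m : ℕ) (t : ℤ) :
    |(S1^[m] fun t => if t = a then 1 else 0) t| ≤ (Real.sqrt (2 * m + 1))⁻¹ := by
  rw [S1_iter, abs_of_nonneg (div_nonneg (cc_nonneg _ _) (by positivity))]
  refine le_trans ?_ (cbin' m)
  exact div_le_div_of_nonneg_right (cc_le _ _) (by positivity)

/-! ### sums over a group -/

section grp
variable {G : Type} [AddCommGroup G]

/-- finite support -/
def FS (f : G → ℝ) : Prop := ∃ s : Finset G, ∀ x, x ∉ s → f x = 0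

theorem FS.sum {f : G → ℝ} (h : FS f) : Summable f := by
  obtain ⟨s, hs⟩ := h
  exact summable_of_ne_finset_zero (s := s) fun x hx => hs x hx

theorem FS.shift {f : G → ℝ} (h : FS f) (a : G) : FS fun x => f (x + a) := by
  classical
  obtain ⟨s, hs⟩ := h
  refine ⟨s.image fun x => x - a, fun x hx => hs _ fun hxs => hx ?_⟩
  rw [mem_image]
  exact ⟨x + a, hxs, by abel⟩

theorem FS.shift' {f : G → ℝ} (h : FS f) (a : G) : FS fun x => f (x - a) := by
  have := h.shift (-a)
  simpa only [sub_eq_add_neg] using this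

theorem FS.of {f F : G → ℝ} (h : FS f) (h' : ∀ x, f x = 0 → F x = 0) : FS F := by
  obtain ⟨s, hs⟩ := h
  exact ⟨s, fun x hx => h' x (hs x hx)⟩

theorem FS.of2 {f g F : G → ℝ} (hf : FS f) (hg : FS g)
    (h' : ∀ x, f x = 0 → g x = 0 → F x = 0) : FS F := by
  classical
  obtain ⟨s, hs⟩ := hf
  obtain ⟨t, ht⟩ := hg
  refine ⟨s ∪ t, fun x hx => ?_⟩
  rw [mem_union, not_or] at hx
  exact h' x (hs x hx.1) (ht x hx.2)

/-- one step of the walk -/
noncomputable def SS (a : G) (f : G → ℝ) (x : G) : ℝ := f x / 2 + (f (x + a) + f (x - a)) / 4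

/-- the difference -/
def DD (a : G) (f : G → ℝ) (x : G) : ℝ := f (x + a) - f x

/-- the square of the norm -/
noncomputable def NN (f : G → ℝ) : ℝ := ∑' x, f x ^ 2

/-- the `ℓ¹` norm -/
noncomputable def AA (f : G → ℝ) : ℝ := ∑' x, |f x|

theorem FS.SS {f : G → ℝ} (h : FS f) (a : G) : FS (SS a f) := by
  have h1 : FS fun x => |f (x + a)| + |f (x - a)| :=
    FS.of2 (h.shift a) (h.shift' a) fun x h2 h3 => by
      show |f (x + a)| + |f (x - a)| = 0
      rw [show f (x + a) = 0 from h2, show f (x - a) = 0 from h3]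
      simp
  refine FS.of2 h h1 fun x h2 h3 => ?_
  have h4 : f (x + a) = 0 := abs_eq_zero.1 (by
    have := abs_nonneg (f (x - a))
    have := abs_nonneg (f (x + a))
    linarith)
  have h5 : f (x - a) = 0 := abs_eq_zero.1 (by
    have := abs_nonneg (f (x - a))
    have := abs_nonneg (f (x + a))
    linarith)
  rw [NSH.SS, h2, h4, h5]
  norm_num

theorem FS.DD {f : G → ℝ} (h : FS f) (a : G) : FS (DD a f) :=
  FS.of2 (h.shift a) h fun x h2 h3 => by
    rw [NSH.DD, h3, show f (x + a) = 0 from h2, sub_zero]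

theorem tsum_sh (F : G → ℝ) (a : G) : ∑' x, F (x + a) = ∑' x, F x := (Equiv.addRight a).tsum_eq F

theorem tsum_sh' (F : G → ℝ) (a : G) : ∑' x, F (x - a) = ∑' x, F x := (Equiv.subRight a).tsum_eq F

theorem hs {F : G → ℝ} (h : FS F) : HasSum F (∑' x, F x) := h.sum.hasSum

theorem NN_SS {f : G → ℝ} (h : FS f) (a : G) : NN (SS a f) ≤ NN f := by
  have h1 : HasSum (fun x => f x ^ 2) (NN f) := hs (h.of fun x hx => by rw [hx]; norm_num)
  have h2 : HasSum (fun x => f (x + a) ^ 2) (NN f) := by
    have := hs (F := fun x => f (x + a) ^ 2) ((h.shift a).of fun x hx => by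
      show f (x + a) ^ 2 = 0
      rw [show f (x + a) = 0 from hx]; norm_num)
    rwa [tsum_sh (fun x => f x ^ 2) a] at this
  have h3 : HasSum (fun x => f (x - a) ^ 2) (NN f) := by
    have := hs (F := fun x => f (x - a) ^ 2) ((h.shift' a).of fun x hx => by
      show f (x - a) ^ 2 = 0
      rw [show f (x - a) = 0 from hx]; norm_num)
    rwa [tsum_sh' (fun x => f x ^ 2) a] at this
  have h4 : HasSum (fun x => SS a f x ^ 2) (NN (SS a f)) :=
    hs ((h.SS a).of fun x hx => by rw [hx]; norm_num)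
  have h5 := (h1.mul_left (1 / 2)).add ((h2.add h3).mul_left (1 / 4))
  refine (hasSum_le (fun x => ?_) h4 h5).trans (le_of_eq ?_)
  · show (f x / 2 + (f (x + a) + f (x - a)) / 4) ^ 2 ≤
      1 / 2 * f x ^ 2 + 1 / 4 * (f (x + a) ^ 2 + f (x - a) ^ 2)
    nlinarith [sq_nonneg (f x - f (x + a)), sq_nonneg (f x - f (x - a)),
      sq_nonneg (f (x + a) - f (x - a))]
  · ring

theorem AA_SS {f : G → ℝ} (h : FS f) (a : G) : AA (SS a f) ≤ AA f := by
  have h1 : HasSum (fun x => |f x|) (AA f) := hs (h.of fun x hx => by rw [hx]; norm_num)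
  have h2 : HasSum (fun x => |f (x + a)|) (AA f) := by
    have := hs (F := fun x => |f (x + a)|) ((h.shift a).of fun x hx => by
      show |f (x + a)| = 0
      rw [show f (x + a) = 0 from hx]; norm_num)
    rwa [tsum_sh (fun x => |f x|) a] at this
  have h3 : HasSum (fun x => |f (x - a)|) (AA f) := by
    have := hs (F := fun x => |f (x - a)|) ((h.shift' a).of fun x hx => by
      show |f (x - a)| = 0
      rw [show f (x - a) = 0 from hx]; norm_num)
    rwa [tsum_sh' (fun x => |f x|) a] at this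
  have h4 : HasSum (fun x => |SS a f x|) (AA (SS a f)) :=
    hs ((h.SS a).of fun x hx => by rw [hx]; norm_num)
  have h5 := (h1.mul_left (1 / 2)).add ((h2.add h3).mul_left (1 / 4))
  refine (hasSum_le (fun x => ?_) h4 h5).trans (le_of_eq ?_)
  · show |f x / 2 + (f (x + a) + f (x - a)) / 4| ≤
      1 / 2 * |f x| + 1 / 4 * (|f (x + a)| + |f (x - a)|)
    have e1 := abs_add_le (f x / 2) ((f (x + a) + f (x - a)) / 4)
    have e2 := abs_add_le (f (x + a)) (f (x - a))
    rw [abs_div, abs_div] at e1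
    norm_num at e1
    linarith
  · ring

theorem NN_step {f : G → ℝ} (h : FS f) (a : G) : NN f ≤ NN (SS a f) + 1 / 2 * NN (DD a f) := by
  have h1 : HasSum (fun x => f x ^ 2) (NN f) := hs (h.of fun x hx => by rw [hx]; norm_num)
  have h2 : HasSum (fun x => f (x + a) ^ 2) (NN f) := by
    have := hs (F := fun x => f (x + a) ^ 2) ((h.shift a).of fun x hx => by
      show f (x + a) ^ 2 = 0
      rw [show f (x + a) = 0 from hx]; norm_num)
    rwa [tsum_sh (fun x => f x ^ 2) a] at this
  have h3 : HasSum (fun x => f x * f (x + a)) (∑' x, f x * f (x + a)) :=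
    hs (h.of fun x hx => by rw [hx, zero_mul])
  have h3' : HasSum (fun x => f x * f (x - a)) (∑' x, f x * f (x + a)) := by
    have e1 := hs (F := fun x => f x * f (x - a)) (h.of fun x hx => by rw [hx, zero_mul])
    have e2 := tsum_sh (fun x => f x * f (x - a)) a
    rw [← e2] at e1
    convert e1 using 1
    congr 1
    funext x
    rw [add_sub_cancel_right, mul_comm]
  have h4 : HasSum (fun x => SS a f x ^ 2) (NN (SS a f)) :=
    hs ((h.SS a).of fun x hx => by rw [hx]; norm_num)
  have h5 : NN (DD a f) = NN f - 2 * (∑' x, f x * f (x + a)) + NN f := by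
    have e1 := (h2.sub (h3.mul_left 2)).add h1
    rw [← e1.tsum_eq, NN]
    congr 1
    funext x
    rw [DD]
    ring
  have h6 := h4.add ((((h1.mul_left 2).sub h3).sub h3').mul_left (1 / 2))
  refine (hasSum_le (fun x => ?_) h1 h6).trans (le_of_eq ?_)
  · show f x ^ 2 ≤ (f x / 2 + (f (x + a) + f (x - a)) / 4) ^ 2 +
      1 / 2 * (2 * f x ^ 2 - f x * f (x + a) - f x * f (x - a))
    nlinarith [sq_nonneg (2 * f x - f (x + a) - f (x - a))]
  · rw [h5]
    ring

theorem DD_SS (a b : G) (f : G → ℝ) : DD b (SS a f) = SS a (DD b f) := by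
  funext x
  simp only [DD, SS]
  rw [show x + b + a = x + a + b by abel, show x + b - a = x - a + b by abel]
  ring

/-- the product of the steps -/
noncomputable def op (l : List G) (f : G → ℝ) : G → ℝ := l.foldr SS f

theorem op_cons (a : G) (l : List G) (f : G → ℝ) : op (a :: l) f = SS a (op l f) := rfl

theorem FS.op {f : G → ℝ} (h : FS f) (l : List G) : FS (op l f) := by
  induction l with
  | nil => exact h
  | cons a l ih => exact ih.SS a

theorem NN_op {f : G → ℝ} (h : FS f) (l : List G) : NN (op l f) ≤ NN f := by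
  induction l with
  | nil => exact le_rfl
  | cons a l ih => exact (NN_SS (h.op l) a).trans ih

theorem AA_op {f : G → ℝ} (h : FS f) (l : List G) : AA (op l f) ≤ AA f := by
  induction l with
  | nil => exact le_rfl
  | cons a l ih => exact (AA_SS (h.op l) a).trans ih

theorem DD_op (b : G) (f : G → ℝ) (l : List G) : DD b (op l f) = op l (DD b f) := by
  induction l with
  | nil => rfl
  | cons a l ih => rw [op_cons, op_cons, DD_SS, ih]

theorem NN_list {f : G → ℝ} (h : FS f) (l : List G) :
    NN f ≤ NN (op l f) + 1 / 2 * (l.map fun a => NN (DD a f)).sum := by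
  induction l with
  | nil => simp [op]
  | cons a l ih =>
    have h1 := NN_step (h.op l) a
    have h2 : NN (DD a (op l f)) ≤ NN (DD a f) := by
      rw [DD_op]
      exact NN_op (h.DD a) l
    rw [List.map_cons, List.sum_cons, op_cons]
    linarith

theorem op_sum {κ : Type} (s : Finset κ) (c : κ → ℝ) (F : κ → G → ℝ) (l : List G) :
    op l (fun x => ∑ z ∈ s, c z * F z x) = fun x => ∑ z ∈ s, c z * op l (F z) x := by
  induction l with
  | nil => rfl
  | cons a l ih =>
    rw [op_cons, ih]
    funext x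
    simp only [SS, op_cons]
    rw [← sum_add_distrib, sum_div, sum_div, ← sum_add_distrib]
    refine sum_congr rfl fun z _ => ?_
    ring

end grp

/-! ### products -/

section prod
variable {d : ℕ}

/-- a product function -/
noncomputable def pf (f : Fin d → ℤ → ℝ) (x : Fin d → ℤ) : ℝ := ∏ j, f j (x j)

theorem SS_pf (f : Fin d → ℤ → ℝ) (i : Fin d) :
    SS (Pi.single i (1 : ℤ)) (pf f) = pf (Function.update f i (S1 (f i))) := by
  funext x
  have key : ∀ (g : Fin d → ℤ → ℝ) (y : Fin d → ℤ), (∀ j, j ≠ i → g j = f j) →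
      (∀ j, j ≠ i → y j = x j) → pf g y = g i (y i) * ∏ j ∈ univ.erase i, f j (x j) := by
    intro g y hg hy
    rw [pf, ← mul_prod_erase univ _ (mem_univ i)]
    congr 1
    refine prod_congr rfl fun j hj => ?_
    have := (mem_erase.1 hj).1
    rw [hg j this, hy j this]
  rw [SS, key f x (fun _ _ => rfl) (fun _ _ => rfl),
    key f (x + Pi.single i 1) (fun _ _ => rfl) (fun j hj => by
      rw [Pi.add_apply, Pi.single_eq_of_ne hj, add_zero]),
    key f (x - Pi.single i 1) (fun _ _ => rfl) (fun j hj => by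
      rw [Pi.sub_apply, Pi.single_eq_of_ne hj, sub_zero]),
    key (Function.update f i (S1 (f i))) x (fun j hj => Function.update_of_ne hj _ _)
      (fun _ _ => rfl)]
  rw [Function.update_self, S1, Pi.add_apply, Pi.sub_apply, Pi.single_eq_same]
  ring

theorem op_pf (f : Fin d → ℤ → ℝ) (l : List (Fin d)) :
    op (l.map fun i => (Pi.single i (1 : ℤ) : Fin d → ℤ)) (pf f) =
      pf fun j => S1^[l.count j] (f j) := by
  induction l with
  | nil => rfl
  | cons i l ih =>
    rw [List.map_cons, op_cons, ih, SS_pf]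
    congr 1
    funext j
    by_cases h : j = i
    · subst h
      rw [Function.update_self, List.count_cons_self, iterate_succ_apply']
    · rw [Function.update_of_ne h, List.count_cons_of_ne (Ne.symm h)]

/-- a list with every index `m` times -/
theorem exists_list (d m : ℕ) : ∃ l : List (Fin d), ∀ j, l.count j = m := by
  induction m with
  | zero => exact ⟨[], fun j => rfl⟩
  | succ m ih =>
    obtain ⟨l, hl⟩ := ih
    refine ⟨List.finRange d ++ l, fun j => ?_⟩
    rw [List.count_append, hl, List.count_eq_one_of_mem (List.nodup_finRange d)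
      (List.mem_finRange j), add_comm]

/-- the delta function -/
theorem delta (z x : Fin d → ℤ) : pf (fun j t => if t = z j then 1 else 0) x =
    if x = z then 1 else 0 := by
  rw [pf, prod_ite_zero]
  have : (∀ i ∈ (univ : Finset (Fin d)), x i = z i) ↔ x = z := by
    constructor
    · intro h
      funext i
      exact h i (mem_univ i)
    · rintro rfl i _
      rfl
  by_cases h : x = z
  · rw [if_pos h, if_pos (this.2 h), prod_const_one]
  · rw [if_neg h, if_neg fun h' => h (this.1 h')]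

/-- the supremum bound -/
theorem sup_bd (s : Finset (Fin d → ℤ)) (g : (Fin d → ℤ) → ℝ) (hg : ∀ x, x ∉ s → g x = 0) (m : ℕ)
    (l : List (Fin d)) (hl : ∀ j, l.count j = m) (x : Fin d → ℤ) :
    |op (l.map fun i => (Pi.single i (1 : ℤ) : Fin d → ℤ)) g x| ≤
      ((Real.sqrt (2 * m + 1))⁻¹) ^ d * ∑ x ∈ s, |g x| := by
  have h1 : g = fun x => ∑ z ∈ s, g z * pf (fun j t => if t = z j then 1 else 0) x := by
    funext x
    rw [sum_congr rfl fun z _ => by rw [delta z x]]
    by_cases hx : x ∈ s
    · rw [sum_eq_single_of_mem x hx fun z _ hz => by rw [if_neg (Ne.symm hz), mul_zero],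
        if_pos rfl, mul_one]
    · rw [hg x hx]
      refine (sum_eq_zero fun z hz => ?_).symm
      have hne : ¬ x = z := by
        rintro rfl
        exact hx hz
      rw [if_neg hne, mul_zero]
  rw [h1, op_sum]
  refine (abs_sum_le_sum_abs _ _).trans ?_
  rw [← h1, mul_sum]
  refine sum_le_sum fun z hz => ?_
  rw [abs_mul, mul_comm]
  refine mul_le_mul_of_nonneg_right ?_ (abs_nonneg _)
  rw [op_pf, pf, abs_prod]
  refine (prod_le_prod (fun _ _ => abs_nonneg _) fun j _ => ?_).trans (le_of_eq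
    (by rw [prod_const, card_univ, Fintype.card_fin]))
  rw [hl]
  exact S1_bd _ _ _

end prod

/-- the box -/
noncomputable def QQ {d : ℕ} (a : Fin d → ℤ) (n : ℕ) : Finset (Fin d → ℤ) :=
  Finset.Icc (fun i => a i - (n : ℤ)) (fun i => a i + (n : ℤ))

theorem mem_QQ {d : ℕ} {a x : Fin d → ℤ} {n : ℕ} :
    x ∈ QQ a n ↔ ∀ i, a i - (n : ℤ) ≤ x i ∧ x i ≤ a i + n := by
  unfold QQ
  rw [Finset.mem_Icc, Pi.le_def, Pi.le_def, ← forall_and]

theorem nash {d : ℕ} (z : Fin d → ℤ) (R m : ℕ) (g : (Fin d → ℤ) → ℝ)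
    (hg : ∀ x, x ∉ QQ z R → g x = 0) :
    ∑ x ∈ QQ z R, g x ^ 2 ≤
      (m : ℝ) / 2 * ∑ x ∈ QQ z (R + 1), ∑ i : Fin d, (g (x + Pi.single i (1 : ℤ)) - g x) ^ 2 +
        ((Real.sqrt (2 * m + 1))⁻¹) ^ d * (∑ x ∈ QQ z R, |g x|) ^ 2 := by
  classical
  have hF : FS g := ⟨QQ z R, hg⟩
  obtain ⟨l, hl⟩ := exists_list d m
  set L := l.map fun i => (Pi.single i (1 : ℤ) : Fin d → ℤ) with hL
  have h1 := NN_list hF L
  have h2 : NN g = ∑ x ∈ QQ z R, g x ^ 2 := tsum_eq_sum fun x hx => by rw [hg x hx]; norm_num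
  have h3 : AA g = ∑ x ∈ QQ z R, |g x| := tsum_eq_sum fun x hx => by rw [hg x hx]; norm_num
  have h4 : ∀ i : Fin d, NN (DD (Pi.single i (1 : ℤ)) g) =
      ∑ x ∈ QQ z (R + 1), (g (x + Pi.single i (1 : ℤ)) - g x) ^ 2 := by
    intro i
    refine tsum_eq_sum fun x hx => ?_
    rw [mem_QQ] at hx
    rw [DD, hg x, hg (x + (Pi.single i (1 : ℤ) : Fin d → ℤ))]
    · norm_num
    · rw [mem_QQ]
      intro h
      apply hx
      intro j
      have := h j
      rw [Pi.add_apply] at this
      by_cases hj : j = i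
      · subst hj
        rw [Pi.single_eq_same] at this
        push_cast
        omega
      · rw [Pi.single_eq_of_ne hj] at this
        push_cast
        omega
    · rw [mem_QQ]
      intro h
      apply hx
      intro j
      have := h j
      push_cast
      omega
  have h5 : (L.map fun a => NN (DD a g)).sum =
      (m : ℝ) * ∑ x ∈ QQ z (R + 1), ∑ i : Fin d, (g (x + Pi.single i (1 : ℤ)) - g x) ^ 2 := by
    rw [hL, List.map_map, Finset.sum_list_map_count, sum_comm, mul_sum]
    rw [sum_subset (subset_univ _) fun i _ hi => by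
      rw [List.count_eq_zero_of_not_mem fun h => hi (List.mem_toFinset.2 h), zero_smul]]
    refine sum_congr rfl fun i _ => ?_
    rw [hl, nsmul_eq_mul, ← h4]
    rfl
  have h6 : NN (op L g) ≤ ((Real.sqrt (2 * m + 1))⁻¹) ^ d * (∑ x ∈ QQ z R, |g x|) ^ 2 := by
    set K : ℝ := ((Real.sqrt (2 * m + 1))⁻¹) ^ d * ∑ x ∈ QQ z R, |g x| with hK
    have e1 : HasSum (fun x => op L g x ^ 2) (NN (op L g)) :=
      hs ((hF.op L).of fun x hx => by rw [hx]; norm_num)
    have e2 : HasSum (fun x => |op L g x|) (AA (op L g)) :=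
      hs ((hF.op L).of fun x hx => by rw [hx]; norm_num)
    have e3 := hasSum_le (fun x => ?_) e1 (e2.mul_left K)
    · have e4 : K * AA (op L g) ≤ K * AA g := by
        refine mul_le_mul_of_nonneg_left (AA_op hF L) ?_
        rw [hK]
        positivity
      refine e3.trans (e4.trans (le_of_eq ?_))
      rw [h3, hK]
      ring
    · show op L g x ^ 2 ≤ K * |op L g x|
      rw [← sq_abs, sq]
      exact mul_le_mul_of_nonneg_right (sup_bd _ g hg m l hl x) (abs_nonneg _)
  rw [h5, h2] at h1
  linarith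

end Pool.Agent.Y261.HE.NSH
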