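import Pool.Agent.Y661.HE.Stm2
import Pool.Agent.Y261.HE.NshCore

/-!
# A Nash inequality on `ℤ ^ d` with explicit constants
-/

set_option autoImplicit false

namespace Pool.Agent.Y261.HE.NSH

theorem main : Pool.Agent.Y661.HE.S_NSH := by
  intro d _ z R m g hg
  exact nash z R m g hg

end Pool.Agent.Y261.HE.NSH
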